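import Pool.Agent.H49.IRE.QFin
import Pool.Agent.H20.FV.Final

/-!
# Q1 as bounded splitting of ample classes
-/

set_option autoImplicit false

namespace Pool.Agent.H49.BS

open Pool.Agent.H57.KM Pool.Agent.H57.IR Pool.Agent.H20.FV

variable {n d : ℕ}

/-- the ample integral classes of degree at most `B` -/
def Low (D : NefData n) (I : MultilinearMap ℝ (fun _ : Fin d => V n) ℝ) (B : ℝ) : Set (Fin n → ℤ) :=
  {s | toR s ∈ D.amp ∧ I (fun _ => toR s) ≤ B}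

/-- the class `s` is the sum of an ample integral class and a nonzero nef integral class -/
def Splits (D : NefData n) (s : Fin n → ℤ) : Prop :=
  ∃ a x : Fin n → ℤ, toR a ∈ D.amp ∧ toR x ∈ closure D.amp ∧ x ≠ 0 ∧ s = a + x

/-- the class `s` is the middle of two different ample integral classes: `s + x` and `s - x` are ample for a nonzero
integral `x` -/
def Middle (D : NefData n) (s : Fin n → ℤ) : Prop :=
  ∃ x : Fin n → ℤ, x ≠ 0 ∧ toR (s + x) ∈ D.amp ∧ toR (s - x) ∈ D.amp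

theorem deg_nonneg {D : NefData n} {I : MultilinearMap ℝ (fun _ : Fin d => V n) ℝ}
    (hI : Pool.Agent.H49.IRE.TopForm D I) (hd : 0 < d) {x : V n} (hs : x ∈ D.amp) :
    (0 : ℝ) ≤ I (fun _ => x) := by
  by_cases hv : x = 0
  · have h2 : (fun _ : Fin d => x) = fun _ : Fin d => (0 : ℝ) • x := by
      funext i
      rw [hv, smul_zero]
    rw [h2, Pool.Agent.H49.IRE.TopForm.smul, zero_pow hd.ne', zero_mul]
  · exact (hI.pos hd hv _ hs).le

theorem fin_of_cov {D : NefData n} {I : MultilinearMap ℝ (fun _ : Fin d => V n) ℝ}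
    (hI : Pool.Agent.H49.IRE.TopForm D I) (hd : 0 < d) (hC : Cov D.amp D.G) (B : ℝ) :
    FinOrb D.G (Low D I B) := by
  classical
  obtain ⟨S, hS, hcov⟩ := hC
  have hfin : {y : Fin n → ℤ | toR y ∈ D.amp ∧ gen S (toR y) ∧ I (fun _ => toR y) ≤ B}.Finite := by
    have h1 : {y : Fin n → ℤ | toR y ∈ D.amp ∧ gen S (toR y) ∧ I (fun _ => toR y) ≤ B} ⊆
        ⋃ z ∈ Set.Icc (0 : ℤ) ⌊B⌋, {y : Fin n → ℤ | toR y ∈ D.amp ∧ gen S (toR y) ∧
          I (fun _ => toR y) = (z : ℝ)} := by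
      rintro y ⟨h1, h2, h3⟩
      obtain ⟨z, hz⟩ := hI.int (fun _ => y)
      refine Set.mem_biUnion (x := z) ?_ ⟨h1, h2, hz⟩
      rw [Set.mem_Icc]
      constructor
      · have h4 := deg_nonneg hI hd h1
        rw [hz] at h4
        exact_mod_cast h4
      · rw [Int.le_floor, ← hz]
        exact h3
    refine Set.Finite.subset (Set.Finite.biUnion (Set.finite_Icc _ _) (fun z _ => ?_)) h1
    exact Pool.Agent.H49.IRE.fin_level D.isAmp (fun x => I (fun _ => x)) hI.mono S hS z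
  refine ⟨_, hfin, ?_⟩
  rintro s ⟨hs, hsB⟩
  have h1 := hcov hs
  rw [Set.mem_iUnion₂] at h1
  obtain ⟨g, hg, x, hx, hgx⟩ := h1
  have h2 : x = toR (actZ g⁻¹ s) := by
    rw [toR_actZ, ← hgx, ← act_mul, inv_mul_cancel, act_one]
  refine ⟨g, hg, actZ g⁻¹ s, ⟨?_, ?_, ?_⟩, ?_⟩
  · rw [toR_actZ]
    exact D.act_amp _ (D.G.inv_mem hg) _ hs
  · rw [← h2]
    exact hx
  · rw [toR_actZ]
    have h3 := hI.inv g⁻¹ (D.G.inv_mem hg) (fun _ => toR s)
    rw [h3]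
    exact hsB
  · rw [← h2, hgx]

theorem split_of_cov {D : NefData n} {I : MultilinearMap ℝ (fun _ : Fin d => V n) ℝ}
    (hI : Pool.Agent.H49.IRE.TopForm D I) (hC : Cov D.amp D.G) :
    ∃ B : ℝ, ∀ s : Fin n → ℤ, toR s ∈ D.amp → B < I (fun _ => toR s) → Splits D s := by
  classical
  obtain ⟨F, hF, horb⟩ := (cov_iff_ind D.isAmp D.act_amp).1 hC
  obtain ⟨B, hB⟩ := (hF.image (fun f => I (fun _ => toR f))).bddAbove
  refine ⟨B, fun s hs hsB => ?_⟩
  by_contra hno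
  have hind : s ∈ Ind D.amp := by
    refine ⟨hs, fun a x ha hx hax => ?_⟩
    by_contra hx0
    exact hno ⟨a, x, ha, hx, hx0, hax⟩
  obtain ⟨g, hg, f, hf, hgf⟩ := horb s hind
  have h1 : I (fun _ => toR s) = I (fun _ => toR f) := by
    rw [hgf]
    exact hI.inv g hg (fun _ => toR f)
  have h2 : I (fun _ => toR f) ≤ B := hB ⟨f, hf, rfl⟩
  rw [h1] at hsB
  exact absurd hsB (not_lt.2 h2)

theorem middle_of_splits {D : NefData n} {s : Fin n → ℤ} (hs : toR s ∈ D.amp) (h : Splits D s) : Middle D s := by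
  obtain ⟨a, x, ha, hx, hx0, rfl⟩ := h
  refine ⟨x, hx0, ?_, ?_⟩
  · rw [Pool.Agent.H57.IR.toR_add, add_comm]
    exact D.isAmp.add_mem _ hx _ hs
  · rwa [add_sub_cancel_right]

theorem cov_of_middle {D : NefData n} {I : MultilinearMap ℝ (fun _ : Fin d => V n) ℝ} {B : ℝ}
    (hF : FinOrb D.G (Low D I B))
    (hM : ∀ s : Fin n → ℤ, toR s ∈ D.amp → B < I (fun _ => toR s) → Middle D s) : Cov D.amp D.G := by
  refine cov_of_sInd D.isAmp D.act_amp (hF.mono ?_)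
  rintro s ⟨hs, hsI⟩
  refine ⟨hs, ?_⟩
  by_contra hsB
  obtain ⟨x, hx0, h1, h2⟩ := hM s hs (not_le.1 hsB)
  exact hx0 (hsI x h1 h2)

theorem main (D : NefData n) (I : MultilinearMap ℝ (fun _ : Fin d => V n) ℝ)
    (hI : Pool.Agent.H49.IRE.TopForm D I) (hd : 0 < d) :
    [HasDomain D.amp D.G,
      (∀ B : ℝ, FinOrb D.G (Low D I B)) ∧
        ∃ B : ℝ, ∀ s : Fin n → ℤ, toR s ∈ D.amp → B < I (fun _ => toR s) → Splits D s,
      ∃ B : ℝ, FinOrb D.G (Low D I B) ∧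
        ∀ s : Fin n → ℤ, toR s ∈ D.amp → B < I (fun _ => toR s) → Middle D s].TFAE ∧
    [D.Q1,
      (∀ s : Fin n → ℤ, toR s ∈ closure D.amp → toR s ∈ D.eff) ∧ (∀ B : ℝ, FinOrb D.G (Low D I B)) ∧
        ∃ B : ℝ, ∀ s : Fin n → ℤ, toR s ∈ D.amp → B < I (fun _ => toR s) → Splits D s,
      (∀ s : Fin n → ℤ, toR s ∈ closure D.amp → toR s ∈ D.eff) ∧
        ∃ B : ℝ, FinOrb D.G (Low D I B) ∧
          ∀ s : Fin n → ℤ, toR s ∈ D.amp → B < I (fun _ => toR s) → Middle D s].TFAE := by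
  have h12 : Cov D.amp D.G → (∀ B : ℝ, FinOrb D.G (Low D I B)) ∧
      ∃ B : ℝ, ∀ s : Fin n → ℤ, toR s ∈ D.amp → B < I (fun _ => toR s) → Splits D s :=
    fun hC => ⟨fun B => fin_of_cov hI hd hC B, split_of_cov hI hC⟩
  have h23 : ((∀ B : ℝ, FinOrb D.G (Low D I B)) ∧
      ∃ B : ℝ, ∀ s : Fin n → ℤ, toR s ∈ D.amp → B < I (fun _ => toR s) → Splits D s) →
      ∃ B : ℝ, FinOrb D.G (Low D I B) ∧
        ∀ s : Fin n → ℤ, toR s ∈ D.amp → B < I (fun _ => toR s) → Middle D s := by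
    rintro ⟨h1, B, hB⟩
    exact ⟨B, h1 B, fun s hs hsB => middle_of_splits hs (hB s hs hsB)⟩
  have h31 : (∃ B : ℝ, FinOrb D.G (Low D I B) ∧
        ∀ s : Fin n → ℤ, toR s ∈ D.amp → B < I (fun _ => toR s) → Middle D s) → Cov D.amp D.G := by
    rintro ⟨B, h1, h2⟩
    exact cov_of_middle h1 h2
  constructor
  · tfae_have 1 → 2 := fun h => h12 ((dom D.isAmp D.act_amp).1 h)
    tfae_have 2 → 3 := h23
    tfae_have 3 → 1 := fun h => (dom D.isAmp D.act_amp).2 (h31 h)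
    tfae_finish
  · tfae_have 1 → 2 := fun h => ⟨((q1eq D).1 h).1, h12 ((q1eq D).1 h).2⟩
    tfae_have 2 → 3 := fun h => ⟨h.1, h23 h.2⟩
    tfae_have 3 → 1 := fun h => (q1eq D).2 ⟨h.1, h31 h.2⟩
    tfae_finish

end Pool.Agent.H49.BS
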